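import Mathlib
import Pool.Agent.H92.TurDefs
import Pool.Agent.H92.Tur12

set_option autoImplicit false

namespace Pool.Agent.Results.MP_d240f8_an.OddDegree

open Polynomial Pool.Agent.H92.Tur

/-- For odd `n = 2m+1 ≥ 7` the best constant in `‖P''‖ ≥ C_n ‖P‖` on `P_n` is attained by
`(1-x)^m (1+x)^(m+1)`, the extremal polynomials are exactly the nonzero multiples of this polynomial
and of its reflection, and the constant is given explicitly through a root of a cubic. -/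
theorem result (m : ℕ) (hm : 3 ≤ m) :
    IsLeast {r : ℝ | ∃ P ∈ Pn (2 * m + 1), r = nrm (derivative (derivative P)) / nrm P}
      (nrm (derivative (derivative (Qm m))) / nrm (Qm m)) ∧
    (∀ P ∈ Pn (2 * m + 1),
      (nrm (derivative (derivative P)) / nrm P = nrm (derivative (derivative (Qm m))) / nrm (Qm m) ↔
        ∃ c : ℝ, c ≠ 0 ∧ (P = C c * Qm m ∨ P = C c * (Qm m).comp (-X)))) ∧
    ∃ ξ : ℝ, 1 / (2 * (m:ℝ) + 1) < ξ ∧ ξ ≤ 4 / (3 * (2 * (m:ℝ) + 1)) ∧
      (2 * (m:ℝ) + 1) * (2 * (m:ℝ) - 1) * ξ ^ 3 - 3 * (2 * (m:ℝ) - 1) * ξ ^ 2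
        - 3 * (2 * (m:ℝ) - 1) * ξ + 3 = 0 ∧
      (∀ η : ℝ, 0 ≤ η → η ≤ 4 / (3 * (2 * (m:ℝ) + 1)) →
        (2 * (m:ℝ) + 1) * (2 * (m:ℝ) - 1) * η ^ 3 - 3 * (2 * (m:ℝ) - 1) * η ^ 2
        - 3 * (2 * (m:ℝ) - 1) * η + 3 = 0 → η = ξ) ∧
      nrm (derivative (derivative (Qm m))) / nrm (Qm m) =
        (2 * (m:ℝ)) * (1 - ξ) ^ (m - 2) * (1 + ξ) ^ (m - 1) * (1 + 2 * ξ - (2 * (m:ℝ) + 1) * ξ ^ 2) *
          (2 * (m:ℝ) + 1) ^ (2 * m + 1) / (2 ^ (2 * m + 1) * (m:ℝ) ^ m * ((m:ℝ) + 1) ^ (m + 1)) := by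
  obtain ⟨ys, h1, h2, hys, hψ1, hlt⟩ := exists_ystar m hm
  have hN := nrm_Qm_dd m hm ys h1 h2 hys
  have hQpos := Qm_x0_pos m hm
  have hratio : nrm (derivative (derivative (Qm m))) / nrm (Qm m) = KK m * Psi m ys := by
    rw [hN, nrm_Qm m hm]
    field_simp
  have hcore : ∀ P ∈ Pn (2 * m + 1), KK m * Psi m ys ≤ nrm (derivative (derivative P)) / nrm P ∧
      (nrm (derivative (derivative P)) / nrm P = KK m * Psi m ys →
        ∃ c : ℝ, c ≠ 0 ∧ (P = C c * Qm m ∨ P = C c * (Qm m).comp (-X))) := by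
    intro P hP
    obtain ⟨c, hc, z, hz, rfl⟩ := Pn_structure m P hP
    have hnpos := nrm_pos _ (PP_ne_zero m c hc z)
    obtain ⟨b1, b2⟩ := core m hm ys h1 h2 hψ1 hlt c hc z hz
    refine ⟨(le_div_iff₀ hnpos).mpr b1, fun h => ?_⟩
    apply b2
    rw [div_eq_iff hnpos.ne'] at h
    exact h
  have hmem : Qm m ∈ Pn (2 * m + 1) := by
    have hQ : Qm m = C ((-1) ^ m) * ((X - C 1) ^ m * (X - C (-1)) ^ (m + 1)) := by
      unfold Qm
      have p3 : (1 - X : ℝ[X]) ^ m = (-1) ^ m * (X - 1) ^ m := by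
        rw [← mul_pow]; congr 1; ring
      rw [p3, C_pow, C_neg, C_1]
      ring
    have hne : ((-1:ℝ) ^ m) ≠ 0 := pow_ne_zero _ (by norm_num)
    have hne2 : ((X - C 1) ^ m * (X - C (-1)) ^ (m + 1) : ℝ[X]) ≠ 0 :=
      mul_ne_zero (pow_ne_zero _ (X_sub_C_ne_zero _)) (pow_ne_zero _ (X_sub_C_ne_zero _))
    have hroots : (Qm m).roots = m • {(1:ℝ)} + (m + 1) • {(-1:ℝ)} := by
      rw [hQ, roots_C_mul _ hne, roots_mul hne2, roots_pow, roots_pow, roots_X_sub_C, roots_X_sub_C]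
    refine ⟨?_, ?_, ?_⟩
    · rw [hQ, natDegree_C_mul hne, natDegree_mul (pow_ne_zero _ (X_sub_C_ne_zero _))
        (pow_ne_zero _ (X_sub_C_ne_zero _)), natDegree_pow, natDegree_pow, natDegree_X_sub_C,
        natDegree_X_sub_C]
      ring
    · rw [hroots, Multiset.card_add, Multiset.card_nsmul, Multiset.card_nsmul,
        Multiset.card_singleton, Multiset.card_singleton]
      ring
    · intro x hx
      rw [hroots, Multiset.mem_add] at hx
      rcases hx with h | h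
      · have := Multiset.mem_of_mem_nsmul h
        rw [Multiset.mem_singleton] at this
        rw [this]; norm_num
      · have := Multiset.mem_of_mem_nsmul h
        rw [Multiset.mem_singleton] at this
        rw [this]; norm_num
  refine ⟨⟨⟨Qm m, hmem, rfl⟩, ?_⟩, ?_, explicit m hm ys h1 h2 hys hψ1⟩
  · rintro r ⟨P, hP, rfl⟩
    rw [hratio]
    exact (hcore P hP).1
  · intro P hP
    constructor
    · intro h
      rw [hratio] at h
      exact (hcore P hP).2 h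
    · rintro ⟨c, hc, h | h⟩
      · rw [h, derivative_C_mul, derivative_C_mul, nrm_C_mul, nrm_C_mul,
          mul_div_mul_left _ _ (abs_ne_zero.mpr hc)]
      · rw [h, derivative_C_mul, derivative_C_mul, nrm_C_mul, nrm_C_mul,
          mul_div_mul_left _ _ (abs_ne_zero.mpr hc), dd_comp_neg, nrm_comp_neg, nrm_comp_neg]

end Pool.Agent.Results.MP_d240f8_an.OddDegree
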